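import Pool.Agent.P.MP_e2f23e_nt.Ex

/-! One block: the increment is large with a prescribed sign with probability bounded below. -/

namespace Pool.Agent.P.MP_e2f23e_nt

open Finset MeasureTheory ProbabilityTheory

/-- The indicator of a good block. -/
noncomputable def gi (ε : ℝ) (t L : ℕ) (A B : ℝ) (x : ℕ → Bool) : ℝ :=
  if A ≤ ε * D t L x ∧ ∑ k ∈ range L, D t k x ^ 2 ≤ B then 1 else 0

lemma dep_W (t L : ℕ) : Dep t (t + L) fun x => ∑ k ∈ range L, D t k x ^ 2 := fun x x' e =>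
  sum_congr rfl fun k hk => by
    rw [((dep_D t k).mono le_rfl (by have := mem_range.1 hk; omega)) x x' e]

lemma dep_gi (ε : ℝ) (t L : ℕ) (A B : ℝ) : Dep t (t + L) (gi ε t L A B) :=
  (dep_D t L).comp₂ (dep_W t L) fun u v => if A ≤ ε * u ∧ v ≤ B then (1 : ℝ) else 0

lemma quartic_le (z : ℝ) : 4 * z ^ 2 + 4 * z - z ^ 4 - 1 / 2 ≤ 10 := by
  nlinarith [sq_nonneg (z ^ 2 - 29 / 10), sq_nonneg (z - 17 / 10), sq_nonneg z]

lemma quartic_neg {z : ℝ} (h : z < 1 / 10) : 4 * z ^ 2 + 4 * z - z ^ 4 - 1 / 2 ≤ 0 := by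
  rcases le_total 0 z with h0 | h0
  · nlinarith [sq_nonneg (z ^ 2)]
  · have : 0 ≤ 4 + 4 * z - z ^ 3 := by
      nlinarith [mul_nonneg (neg_nonneg.2 h0) (sq_nonneg (z + 6 / 5)), sq_nonneg (z + 6 / 5)]
    nlinarith [mul_nonneg (neg_nonneg.2 h0) this]

variable {Ω : Type} [MeasurableSpace Ω] {μ : Measure Ω} {X : ℕ → Ω → Bool}
  [IsProbabilityMeasure μ] (H : Coins μ X)
include H

lemma Coins.pz {ε σ A B : ℝ} {t L : ℕ} (hε : ε = 1 ∨ ε = -1) (hσ : 0 < σ) (hB : 0 < B)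
    (h2 : mo μ X 2 t L = σ ^ 2) (h0 : 0 ≤ mo μ X 1 t L) (h1 : mo μ X 1 t L ≤ σ / 16)
    (h4 : mo μ X 4 t L ≤ 3 * mo μ X 2 t L ^ 2) (hW : ∑ k ∈ range L, mo μ X 2 t k ≤ B / 80)
    (hA : A ≤ σ / 10) : 1 / 80 ≤ Ex μ X (gi ε t L A B) := by
  have f := (dep_D t L).fd
  have fW := (dep_W t L).fd
  have key : ∀ x, (4 / (10 * σ ^ 2)) * D t L x ^ 2 + (4 * ε / (10 * σ)) * D t L x ^ 1 +
      (-1 / (10 * σ ^ 4)) * D t L x ^ 4 + (-1 / 20) +
      (-1 / B) * ∑ k ∈ range L, D t k x ^ 2 ≤ gi ε t L A B x := by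
    intro x
    have e : (4 / (10 * σ ^ 2)) * D t L x ^ 2 + (4 * ε / (10 * σ)) * D t L x ^ 1 +
        (-1 / (10 * σ ^ 4)) * D t L x ^ 4 + (-1 / 20) =
        (4 * (ε * D t L x / σ) ^ 2 + 4 * (ε * D t L x / σ) - (ε * D t L x / σ) ^ 4 - 1 / 2) /
          10 := by
      rcases hε with rfl | rfl <;> field_simp <;> ring
    have w0 : 0 ≤ (∑ k ∈ range L, D t k x ^ 2) / B :=
      div_nonneg (sum_nonneg fun _ _ => sq_nonneg _) hB.le
    have e2 : (-1 / B) * ∑ k ∈ range L, D t k x ^ 2 = -((∑ k ∈ range L, D t k x ^ 2) / B) := by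
      ring
    have q1 := quartic_le (ε * D t L x / σ)
    rw [e, e2, gi]
    split_ifs with h
    · linarith
    · rcases not_and_or.1 h with h | h
      · have : ε * D t L x / σ < 1 / 10 := by
          rw [div_lt_iff₀ hσ]; linarith [not_le.1 h]
        linarith [quartic_neg this]
      · have : 1 ≤ (∑ k ∈ range L, D t k x ^ 2) / B := by
          rw [le_div_iff₀ hB]; linarith [not_le.1 h]
        linarith
  refine le_trans ?_ (H.mono (f.comp₂ fW fun u w => (4 / (10 * σ ^ 2)) * u ^ 2 +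
    (4 * ε / (10 * σ)) * u ^ 1 + (-1 / (10 * σ ^ 4)) * u ^ 4 + (-1 / 20) + (-1 / B) * w)
    (dep_gi ε t L A B).fd key)
  rw [H.add (f.comp fun u => (4 / (10 * σ ^ 2)) * u ^ 2 + (4 * ε / (10 * σ)) * u ^ 1 +
      (-1 / (10 * σ ^ 4)) * u ^ 4 + (-1 / 20)) (fW.comp fun w => (-1 / B) * w),
    H.add (f.comp fun u => (4 / (10 * σ ^ 2)) * u ^ 2 + (4 * ε / (10 * σ)) * u ^ 1 +
      (-1 / (10 * σ ^ 4)) * u ^ 4) (FD.const _),
    H.add (f.comp fun u => (4 / (10 * σ ^ 2)) * u ^ 2 + (4 * ε / (10 * σ)) * u ^ 1)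
      (f.comp fun u => (-1 / (10 * σ ^ 4)) * u ^ 4),
    H.add (f.comp fun u => (4 / (10 * σ ^ 2)) * u ^ 2)
      (f.comp fun u => (4 * ε / (10 * σ)) * u ^ 1), Ex_const, Ex_cmul, Ex_cmul, Ex_cmul, Ex_cmul,
    H.sum _ fun k => (dep_D t k).fd.comp (· ^ 2)]
  change 1 / 80 ≤ 4 / (10 * σ ^ 2) * mo μ X 2 t L + 4 * ε / (10 * σ) * mo μ X 1 t L +
    -1 / (10 * σ ^ 4) * mo μ X 4 t L + -1 / 20 + -1 / B * ∑ k ∈ range L, mo μ X 2 t k
  rw [h2] at h4 ⊢
  have a1 : 4 / (10 * σ ^ 2) * σ ^ 2 = 4 / 10 := by field_simp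
  have a2 : -(1 / 40) ≤ 4 * ε / (10 * σ) * mo μ X 1 t L := by
    rw [div_mul_eq_mul_div, le_div_iff₀ (by positivity)]
    rcases hε with rfl | rfl <;> nlinarith
  have a3 : -(3 / 10) ≤ -1 / (10 * σ ^ 4) * mo μ X 4 t L := by
    rw [div_mul_eq_mul_div, le_div_iff₀ (by positivity)]
    nlinarith
  have a4 : -(1 / 80) ≤ -1 / B * ∑ k ∈ range L, mo μ X 2 t k := by
    rw [div_mul_eq_mul_div, le_div_iff₀ hB]
    linarith
  linarith

variable (μ X) in
/-- Correlations. -/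
noncomputable def rho (s k : ℕ) : ℝ := ∏ j ∈ Ioc s (s + k), Ex μ X (xi j)

omit H [IsProbabilityMeasure μ] in
lemma rho_succ (s k : ℕ) : rho μ X s (k + 1) = Ex μ X (xi (s + 1)) * rho μ X (s + 1) k := by
  rw [rho, rho, ← prod_Ioc_consecutive _ (by omega : s ≤ s + 1) (by omega : s + 1 ≤ s + (k + 1)),
    Nat.Ioc_succ_singleton, prod_singleton, show s + (k + 1) = s + 1 + k by omega]

lemma Coins.chunk (k s L : ℕ) :
    mo μ X 1 s (k + L) = mo μ X 1 s k + rho μ X s k * mo μ X 1 (s + k) L := by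
  induction k generalizing s with
  | zero => simp [mo_zero 0, rho]
  | succ k ih =>
    rw [show k + 1 + L = k + L + 1 by omega, H.rec1, H.rec1, ih, rho_succ,
      show s + 1 + k = s + (k + 1) by omega]
    ring

variable {n : ℕ} (hr : ∀ j, n < j → 0 ≤ Ex μ X (xi j) ∧ Ex μ X (xi j) ≤ 1)
include hr

omit H [IsProbabilityMeasure μ] in
lemma rho_mem {s : ℕ} (hs : n ≤ s) (k : ℕ) : 0 ≤ rho μ X s k ∧ rho μ X s k ≤ 1 :=
  ⟨prod_nonneg fun j hj => (hr j (by have := mem_Ioc.1 hj; omega)).1,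
    prod_le_one (fun j hj => (hr j (by have := mem_Ioc.1 hj; omega)).1)
      fun j hj => (hr j (by have := mem_Ioc.1 hj; omega)).2⟩

lemma Coins.m1_mem (k s : ℕ) (hs : n ≤ s) :
    k * rho μ X s k ≤ mo μ X 1 s k ∧ mo μ X 1 s k ≤ k := by
  induction k generalizing s with
  | zero => simp [mo_zero 0]
  | succ k ih =>
    obtain ⟨h1, h2⟩ := ih (s + 1) (by omega)
    obtain ⟨r0, r1⟩ := hr (s + 1) (by omega)
    obtain ⟨p0, p1⟩ := rho_mem hr hs (k + 1)
    have h0 := (H.kurt hr k (s + 1) (by omega)).1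
    have h3 := mul_le_mul_of_nonneg_left h1 r0
    rw [rho_succ] at p1
    rw [H.rec1, rho_succ]
    push_cast
    constructor <;> nlinarith

/-- Upper bound for the mean. -/
lemma Coins.m1_le {N l : ℕ} {θ : ℝ} (hl : 0 < l) (hθ : θ < 1)
    (h : ∀ s, n ≤ s → s ≤ N → rho μ X s l ≤ θ) (L s : ℕ) (hs : n ≤ s) (hN : s + L ≤ N) :
    mo μ X 1 s L ≤ l / (1 - θ) := by
  have θ0 : 0 ≤ θ := (rho_mem hr hs l).1.trans (h s hs (by omega))
  have h1 : 0 < 1 - θ := by linarith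
  induction L using Nat.strong_induction_on generalizing s with
  | _ L ih =>
    rcases le_total L l with hL | hL
    · refine (H.m1_mem hr L s hs).2.trans ?_
      rw [le_div_iff₀ h1]
      have : (L : ℝ) ≤ l := by exact_mod_cast hL
      nlinarith [Nat.cast_nonneg (α := ℝ) L]
    · obtain ⟨L', rfl⟩ := Nat.exists_eq_add_of_le hL
      have a1 := ih L' (by omega) (s + l) (by omega) (by omega)
      have a2 := mul_le_mul (h s hs (by omega)) a1 (H.kurt hr L' (s + l) (by omega)).1 θ0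
      have a3 := (H.m1_mem hr l s hs).2
      have e : (l : ℝ) / (1 - θ) = l + θ * (l / (1 - θ)) := by field_simp; ring
      rw [H.chunk, e]
      linarith

omit hr in
lemma Coins.m2_le {N : ℕ} {U : ℝ} (h : ∀ L s, n ≤ s → s + L ≤ N → mo μ X 1 s L ≤ U) (L s : ℕ)
    (hs : n ≤ s) (hN : s + L ≤ N) : mo μ X 2 s L ≤ 2 * U * L := by
  induction L generalizing s with
  | zero => simp [mo_zero 1]
  | succ L ih =>
    have a1 := ih (s + 1) (by omega) (by omega)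
    have a2 := h (L + 1) s hs hN
    rw [H.rec1] at a2
    rw [H.rec2]
    push_cast
    linarith

lemma Coins.le_m2 {l : ℕ} {u : ℝ} (h : ∀ s, n ≤ s → u ≤ rho μ X s l) (L s : ℕ) (hs : n ≤ s) :
    l * u * L ≤ mo μ X 2 s (l + L) := by
  induction L generalizing s with
  | zero => simpa using mo_two_nonneg s l
  | succ L ih =>
    have a1 := ih (s + 1) (by omega)
    have a2 := H.chunk l s (L + 1)
    have a3 := (H.m1_mem hr l s hs).1
    have a4 := mul_nonneg (rho_mem hr hs l).1 (H.kurt hr (L + 1) (s + l) (hs.trans le_self_add)).1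
    have a5 := mul_le_mul_of_nonneg_left (h s hs) (Nat.cast_nonneg (α := ℝ) l)
    have a6 := mul_nonneg (hr (s + 1) (by omega)).1 (H.kurt hr (l + L) (s + 1) (by omega)).1
    rw [← add_assoc, H.rec1] at a2
    rw [← add_assoc, H.rec2]
    push_cast
    linarith

end Pool.Agent.P.MP_e2f23e_nt
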