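import Mathlib

/-! The weights `1 / log n` satisfy the window condition. -/

namespace Pool.Agent.P.MP_e2f23e_nt

open Finset Filter

theorem cramer_window : ∀ᶠ n : ℕ in atTop, 1 / Real.log n ≤ 1 / 4 ∧
    1 / 4 ≤ ∑ j ∈ Ioc n (n + ⌊Real.log n⌋₊), 1 / Real.log j ∧
    ∑ j ∈ Ioc n (n + ⌊Real.log n⌋₊), 1 / Real.log j ≤ 1 := by
  filter_upwards [(Real.tendsto_log_atTop.comp tendsto_natCast_atTop_atTop).eventually
    (eventually_ge_atTop 4), eventually_ge_atTop 2] with n h4 h2
  change 4 ≤ Real.log n at h4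
  have n2 : (2 : ℝ) ≤ n := by exact_mod_cast h2
  have f1 := Nat.floor_le (by linarith : 0 ≤ Real.log n)
  have f2 := Nat.lt_floor_add_one (Real.log n)
  have f3 := Real.log_le_sub_one_of_pos (by linarith : (0 : ℝ) < n)
  refine ⟨one_div_le_one_div_of_le (by norm_num) h4, ?_, ?_⟩
  · have := card_nsmul_le_sum (Ioc n (n + ⌊Real.log n⌋₊)) (fun j : ℕ => 1 / Real.log j)
      (1 / (2 * Real.log n)) fun j hj => by
        obtain ⟨a, b⟩ := mem_Ioc.1 hj
        have a' : (n : ℝ) < j := by exact_mod_cast a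
        have b' : (j : ℝ) ≤ n + ⌊Real.log n⌋₊ := by exact_mod_cast b
        refine one_div_le_one_div_of_le (Real.log_pos (by linarith)) ?_
        have := Real.log_le_log (by linarith) (show (j : ℝ) ≤ n ^ 2 by nlinarith)
        rwa [Real.log_pow, Nat.cast_ofNat] at this
    refine le_trans ?_ this
    rw [Nat.card_Ioc, Nat.add_sub_cancel_left, nsmul_eq_mul, mul_one_div,
      le_div_iff₀ (by linarith)]
    linarith
  · have := sum_le_card_nsmul (Ioc n (n + ⌊Real.log n⌋₊)) (fun j : ℕ => 1 / Real.log j)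
      (1 / Real.log n) fun j hj => one_div_le_one_div_of_le (by linarith)
        (Real.log_le_log (by linarith) (by exact_mod_cast (mem_Ioc.1 hj).1.le))
    refine this.trans ?_
    rw [Nat.card_Ioc, Nat.add_sub_cancel_left, nsmul_eq_mul, mul_one_div,
      div_le_one (by linarith)]
    exact f1

end Pool.Agent.P.MP_e2f23e_nt
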