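import Mathlib

/-! The walk that reverses direction after each member of a set of positive integers. -/

namespace Pool.Agent.P.MP_e2f23e_nt

open Finset

/-- The number of members of `S` in `[1, k]`. -/
def cnt (S : ℕ → Bool) (k : ℕ) : ℕ := ((Icc 1 k).filter fun j => S j = true).card

/-- The walk `y 1 = 0`, `y (k + 1) = y k + (-1) ^ cnt S k`. -/
def walk (S : ℕ → Bool) (n : ℕ) : ℤ := ∑ k ∈ Ico 1 n, (-1) ^ cnt S k

/-- The area above the axis. -/
def Apos (S : ℕ → Bool) (n : ℕ) : ℤ := ∑ k ∈ Icc 1 n, max (walk S k) 0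

/-- The area below the axis. -/
def Aneg (S : ℕ → Bool) (n : ℕ) : ℤ := ∑ k ∈ Icc 1 n, max (-walk S k) 0

end Pool.Agent.P.MP_e2f23e_nt
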