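import Pool.Agent.P.MP_e2f23e_nt.Blk

/-! A run of good blocks makes one area much larger than the other. -/

namespace Pool.Agent.P.MP_e2f23e_nt

open Finset

/-- The direction of the walk at time `k`. -/
noncomputable def dir (k : ℕ) (x : ℕ → Bool) : ℝ := (-1) ^ cnt x k

lemma cnt_succ (x : ℕ → Bool) (k : ℕ) :
    cnt x (k + 1) = cnt x k + if x (k + 1) = true then 1 else 0 := by
  rw [cnt, cnt, card_filter, card_filter, sum_Icc_succ_top (by omega)]

lemma dir_succ (k : ℕ) (x : ℕ → Bool) : dir (k + 1) x = dir k x * xi (k + 1) x := by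
  rw [dir, dir, cnt_succ, pow_add, xi]
  split_ifs <;> simp

lemma dir_cases (k : ℕ) (x : ℕ → Bool) : dir k x = 1 ∨ dir k x = -1 := neg_one_pow_eq_or _ _

lemma dep_dir (k : ℕ) : Dep 0 k (dir k) := fun x x' e => by
  rw [dir, dir, cnt, cnt, filter_congr fun j hj => by
    rw [e j (by have := mem_Icc.1 hj; omega) (mem_Icc.1 hj).2]]

lemma walk_succ (x : ℕ → Bool) {k : ℕ} (hk : 1 ≤ k) :
    walk x (k + 1) = walk x k + (-1) ^ cnt x k := sum_Ico_succ_top hk _

lemma walk_add (x : ℕ → Bool) (k t : ℕ) (ht : 1 ≤ t) :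
    (walk x (t + k) : ℝ) = walk x t + dir t x * D t k x := by
  induction k generalizing t with
  | zero => simp [D]
  | succ k ih =>
    rw [show t + (k + 1) = t + 1 + k by omega, ih _ (by omega), walk_succ x ht, dir_succ, D]
    push_cast
    rw [dir]; ring

lemma abs_walk (x : ℕ → Bool) (k : ℕ) : |(walk x k : ℝ)| ≤ k := by
  rw [walk]
  push_cast
  refine (abs_sum_le_sum_abs _ _).trans ?_
  simp

/-- The area on the side `e`. -/
noncomputable def PA (e : ℝ) (x : ℕ → Bool) (n : ℕ) : ℝ := ∑ k ∈ range n, max (e * walk x k) 0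

lemma Apos_eq (x : ℕ → Bool) (n : ℕ) : (Apos x n : ℝ) = PA 1 x (n + 1) := by
  rw [PA, range_eq_Ico, sum_eq_sum_Ico_succ_bot (by omega), Apos]
  simp [walk.eq_1 x 0, Ico_add_one_right_eq_Icc]

lemma Aneg_eq (x : ℕ → Bool) (n : ℕ) : (Aneg x n : ℝ) = PA (-1) x (n + 1) := by
  rw [PA, range_eq_Ico, sum_eq_sum_Ico_succ_bot (by omega), Aneg]
  simp [walk.eq_1 x 0, Ico_add_one_right_eq_Icc]

/-- All of the `m` blocks of length `s ^ 2` after time `s` push the walk to the side `e`. -/
def Good (e a K l : ℝ) (m s : ℕ) (x : ℕ → Bool) : Prop :=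
  ∀ i < m, a * l ≤ e * dir (s + i * s ^ 2) x * D (s + i * s ^ 2) (s ^ 2) x ∧
    ∑ k ∈ range (s ^ 2), D (s + i * s ^ 2) k x ^ 2 ≤ K * s ^ 2 * l ^ 2

lemma Good.run {e a K l : ℝ} {m s : ℕ} {x : ℕ → Bool} (h : Good e a K l m s x)
    (he : e = 1 ∨ e = -1) (ha : 0 ≤ a) (hs : 1 ≤ s) (hl : (s : ℝ) ≤ l) (i : ℕ) (hi : i ≤ m) :
    (i * a - 1) * l ≤ e * walk x (s + i * s ^ 2) ∧
    (a * (i * (i - 1) / 2) - 1 - (K + 3) / 2 * i) * (s ^ 2 * l) ≤
      ∑ k ∈ range (s + i * s ^ 2), e * walk x k ∧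
    PA (-e) x (s + i * s ^ 2) ≤ (1 + (K + 3) / 2 * i) * (s ^ 2 * l) := by
  have s1 : (1 : ℝ) ≤ s := by exact_mod_cast hs
  have l0 : 0 < l := by linarith
  have e1 : |e| = 1 := by rcases he with rfl | rfl <;> simp
  induction i with
  | zero =>
    have b : ∀ k ≤ s, |e * walk x k| ≤ s := fun k hk => by
      rw [abs_mul, e1, one_mul]
      exact (abs_walk x k).trans (by exact_mod_cast hk)
    have b2 : (s : ℝ) * s ≤ s ^ 2 * l := by nlinarith
    refine ⟨?_, ?_, ?_⟩
    · have := (abs_le.1 (b s le_rfl)).1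
      simp only [zero_mul, add_zero, Nat.cast_zero]
      linarith
    · have := card_nsmul_le_sum (range s) (fun k => e * walk x k) (-s) fun k hk =>
        (abs_le.1 (b k (mem_range.1 hk).le)).1
      simp only [zero_mul, add_zero, Nat.cast_zero, card_range, nsmul_eq_mul] at this ⊢
      linarith
    · have := sum_le_card_nsmul (range s) (fun k => max (-e * walk x k) 0) s fun k hk =>
        max_le (by have := (abs_le.1 (b k (mem_range.1 hk).le)).1; linarith) (by linarith)
      simp only [zero_mul, add_zero, Nat.cast_zero, card_range, nsmul_eq_mul, PA] at this ⊢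
      linarith
  | succ i ih =>
    obtain ⟨h1, h2, h3⟩ := ih (by omega)
    obtain ⟨g1, g2⟩ := h i (by omega)
    rw [show s + (i + 1) * s ^ 2 = s + i * s ^ 2 + s ^ 2 by ring]
    generalize ht : s + i * s ^ 2 = t at *
    have t1 : 1 ≤ t := by omega
    have ia : 0 ≤ i * a * l := by positivity
    have b : ∀ k, (i * a - 1) * l - (D t k x ^ 2 / l + l) / 2 ≤ e * walk x (t + k) := fun k => by
      have a1 : |e * dir t x * D t k x| ≤ (D t k x ^ 2 / l + l) / 2 := by
        have : |dir t x| = 1 := by rcases dir_cases t x with h | h <;> simp [h]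
        rw [abs_mul, abs_mul, e1, this, one_mul, one_mul, le_div_iff₀ two_pos,
          div_add' _ _ _ l0.ne', le_div_iff₀ l0, ← sq_abs]
        nlinarith [sq_nonneg (|D t k x| - l)]
      rw [walk_add x k t t1]
      nlinarith [(abs_le.1 a1).1]
    have w : ∑ k ∈ range (s ^ 2), (D t k x ^ 2 / l + l) / 2 ≤ (K + 1) / 2 * (s ^ 2 * l) := by
      rw [← sum_div, sum_add_distrib, ← sum_div, sum_const, card_range, nsmul_eq_mul]
      have : (∑ k ∈ range (s ^ 2), D t k x ^ 2) / l ≤ K * s ^ 2 * l := by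
        rw [div_le_iff₀ l0]; linarith
      push_cast
      linarith
    refine ⟨?_, ?_, ?_⟩
    · rw [walk_add x _ t t1]
      push_cast
      nlinarith
    · have := sum_le_sum fun k (_ : k ∈ range (s ^ 2)) => b k
      rw [sum_sub_distrib, sum_const, card_range, nsmul_eq_mul] at this
      rw [sum_range_add]
      push_cast at this ⊢
      nlinarith
    · have := sum_le_sum (s := range (s ^ 2)) (f := fun k => max (-e * walk x (t + k)) 0)
        (g := fun k => l + (D t k x ^ 2 / l + l) / 2) fun k _ =>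
        max_le (by linarith [b k]) (by positivity)
      rw [sum_add_distrib, sum_const, card_range, nsmul_eq_mul] at this
      rw [PA, sum_range_add]
      rw [PA] at h3
      push_cast at this ⊢
      nlinarith

lemma Good.fin {e a K l M : ℝ} {m s : ℕ} {x : ℕ → Bool} (h : Good e a K l m s x)
    (he : e = 1 ∨ e = -1) (ha : 0 ≤ a) (hs : 1 ≤ s) (hl : (s : ℝ) ≤ l) (hM : 0 ≤ M)
    (h1 : 1 < m * a)
    (h2 : M * (1 + (K + 3) / 2 * m) < a * (m * (m - 1) / 2) - 1 - (K + 3) / 2 * m) :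
    0 < e * walk x (s + m * s ^ 2) ∧
      M * PA (-e) x (s + m * s ^ 2) < PA e x (s + m * s ^ 2) := by
  obtain ⟨a1, a2, a3⟩ := h.run he ha hs hl m le_rfl
  have s1 : (1 : ℝ) ≤ s := by exact_mod_cast hs
  have l0 : 0 < l := by linarith
  refine ⟨lt_of_lt_of_le (mul_pos (by linarith) l0) a1, ?_⟩
  have a4 : ∑ k ∈ range (s + m * s ^ 2), e * walk x k ≤ PA e x (s + m * s ^ 2) :=
    sum_le_sum fun k _ => le_max_left _ _
  have a5 := mul_le_mul_of_nonneg_left a3 hM
  have a6 := mul_lt_mul_of_pos_right h2 (by positivity : (0 : ℝ) < s ^ 2 * l)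
  nlinarith

lemma exists_zero (x : ℕ → Bool) {a : ℕ} (ha : 1 ≤ a) (h : 0 < walk x a) (d : ℕ)
    (h' : walk x (a + d) < 0) : ∃ k, a ≤ k ∧ walk x k = 0 := by
  by_contra hn
  have : ∀ d, 0 < walk x (a + d) := fun d => by
    induction d with
    | zero => exact h
    | succ d ih =>
      have h1 : walk x (a + (d + 1)) ≠ 0 := fun e => hn ⟨_, by omega, e⟩
      rw [← add_assoc, walk_succ x (by omega)] at h1 ⊢
      rcases neg_one_pow_eq_or ℤ (cnt x (a + d)) with e | e <;> rw [e] at h1 ⊢ <;> omega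
  exact absurd (this d) (by omega)

end Pool.Agent.P.MP_e2f23e_nt
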