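import Pool.Agent.P.MP_e2f23e_nt.Defs

/-! Expectations of functions of finitely many independent coins, and moments of increments. -/

namespace Pool.Agent.P.MP_e2f23e_nt

open Finset MeasureTheory ProbabilityTheory

/-- `g` depends only on the coordinates in `(a, b]`. -/
def Dep {β : Type} (a b : ℕ) (g : (ℕ → Bool) → β) : Prop :=
  ∀ x x', (∀ j, a < j → j ≤ b → x j = x' j) → g x = g x'

section dep
variable {β γ δ : Type} {a b a' b' : ℕ} {g : (ℕ → Bool) → β} {h : (ℕ → Bool) → γ}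

lemma Dep.mono (hg : Dep a b g) (ha : a' ≤ a) (hb : b ≤ b') : Dep a' b' g :=
  fun x x' e => hg x x' fun j h1 h2 => e j (by omega) (by omega)

lemma Dep.comp (hg : Dep a b g) (φ : β → γ) : Dep a b fun x => φ (g x) :=
  fun x x' e => congrArg φ (hg x x' e)

lemma Dep.comp₂ (hg : Dep a b g) (hh : Dep a b h) (φ : β → γ → δ) :
    Dep a b fun x => φ (g x) (h x) := fun x x' e => congrArg₂ φ (hg x x' e) (hh x x' e)

lemma Dep.const (a b : ℕ) (c : β) : Dep a b fun _ => c := fun _ _ _ => rfl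

lemma Dep.factor (hg : Dep a b g) : ∃ g' : (Ioc a b → Bool) → β, ∀ x, g x = g' fun i => x i :=
  ⟨fun z => g fun j => if hj : j ∈ Ioc a b then z ⟨j, hj⟩ else false, fun x =>
    hg _ _ fun j h1 h2 => by rw [dif_pos (mem_Ioc.2 ⟨h1, h2⟩)]⟩

end dep

/-- Finite dependence. -/
def FD (g : (ℕ → Bool) → ℝ) : Prop := ∃ b, Dep 0 b g

lemma Dep.fd {a b : ℕ} {g : (ℕ → Bool) → ℝ} (h : Dep a b g) : FD g := ⟨b, h.mono a.zero_le le_rfl⟩

lemma FD.comp₂ {g h : (ℕ → Bool) → ℝ} (hg : FD g) (hh : FD h) (φ : ℝ → ℝ → ℝ) :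
    FD fun x => φ (g x) (h x) := by
  obtain ⟨a, ha⟩ := hg
  obtain ⟨b, hb⟩ := hh
  exact ⟨max a b, (ha.mono le_rfl (le_max_left _ _)).comp₂ (hb.mono le_rfl (le_max_right _ _)) φ⟩

lemma FD.comp {g : (ℕ → Bool) → ℝ} (hg : FD g) (φ : ℝ → ℝ) : FD fun x => φ (g x) :=
  hg.comp₂ hg fun u _ => φ u

lemma FD.const (c : ℝ) : FD fun _ => c := ⟨0, Dep.const _ _ _⟩

/-- The sign of the coin `j`. -/
def xi (j : ℕ) (x : ℕ → Bool) : ℝ := if x j = true then -1 else 1

lemma dep_xi (s : ℕ) : Dep s (s + 1) (xi (s + 1)) := fun x x' e => by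
  simp only [xi, e (s + 1) (by omega) le_rfl]

/-- The increment of the walk that starts upwards at time `s`. -/
def D : ℕ → ℕ → (ℕ → Bool) → ℝ
  | _, 0, _ => 0
  | s, L + 1, x => 1 + xi (s + 1) x * D (s + 1) L x

lemma dep_D (s L : ℕ) : Dep s (s + L) (D s L) := by
  induction L generalizing s with
  | zero => exact Dep.const _ _ _
  | succ L ih =>
    exact ((dep_xi s).mono le_rfl (by omega)).comp₂ ((ih (s + 1)).mono (by omega) (by omega))
      fun u v => 1 + u * v

variable {Ω : Type} [MeasurableSpace Ω] (μ : Measure Ω) (X : ℕ → Ω → Bool)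

/-- Independent coins. -/
structure Coins : Prop where
  meas : ∀ n, Measurable (X n)
  ind : iIndepFun X μ

/-- The expectation. -/
noncomputable def Ex (g : (ℕ → Bool) → ℝ) : ℝ := ∫ ω, g (fun j => X j ω) ∂μ

variable {μ X} [IsProbabilityMeasure μ] (H : Coins μ X) {g h : (ℕ → Bool) → ℝ}
include H

omit [IsProbabilityMeasure μ] in
lemma Coins.measurable (hg : FD g) : Measurable fun ω => g fun j => X j ω := by
  obtain ⟨b, hb⟩ := hg
  obtain ⟨g', e⟩ := hb.factor
  simp only [e]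
  exact (measurable_of_finite g').comp (measurable_pi_lambda _ fun i => H.meas i)

lemma Coins.int (hg : FD g) : Integrable (fun ω => g fun j => X j ω) μ := by
  obtain ⟨b, hb⟩ := hg
  obtain ⟨g', e⟩ := hb.factor
  simp only [e]
  have m : Measurable fun ω (i : Ioc 0 b) => X i ω := measurable_pi_lambda _ fun i => H.meas i
  exact (integrable_map_measure (measurable_of_finite g').aestronglyMeasurable m.aemeasurable).1
    Integrable.of_finite

omit [IsProbabilityMeasure μ] in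
lemma Coins.mul {a b c : ℕ} (hg : Dep a b g) (hh : Dep b c h) :
    Ex μ X (fun x => g x * h x) = Ex μ X g * Ex μ X h := by
  have m1 := H.measurable hg.fd
  have m2 := H.measurable hh.fd
  obtain ⟨g', e⟩ := hg.factor
  obtain ⟨h', e'⟩ := hh.factor
  have i := (H.ind.indepFun_finset (Ioc a b) (Ioc b c) (by
    rw [disjoint_left]; intro j h1 h2; rw [mem_Ioc] at h1 h2; omega) H.meas).comp
    (measurable_of_finite g') (measurable_of_finite h')
  simp only [Ex, e, e'] at m1 m2 ⊢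
  exact i.integral_fun_mul_eq_mul_integral m1.aestronglyMeasurable m2.aestronglyMeasurable

lemma Coins.add (hg : FD g) (hh : FD h) : Ex μ X (fun x => g x + h x) = Ex μ X g + Ex μ X h :=
  integral_add (H.int hg) (H.int hh)

lemma Coins.mono (hg : FD g) (hh : FD h) (le : ∀ x, g x ≤ h x) : Ex μ X g ≤ Ex μ X h :=
  integral_mono (H.int hg) (H.int hh) fun _ => le _

omit H in
lemma Ex_const (c : ℝ) : Ex μ X (fun _ => c) = c := by simp [Ex]

omit H [IsProbabilityMeasure μ] in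
lemma Ex_cmul (c : ℝ) (g : (ℕ → Bool) → ℝ) : Ex μ X (fun x => c * g x) = c * Ex μ X g :=
  integral_const_mul _ _

omit H [IsProbabilityMeasure μ] in
lemma Ex_nonneg (h : ∀ x, 0 ≤ g x) : 0 ≤ Ex μ X g := integral_nonneg fun _ => h _

lemma Coins.sum {ι : Type} (s : Finset ι) {f : ι → (ℕ → Bool) → ℝ} (hf : ∀ i, FD (f i)) :
    Ex μ X (fun x => ∑ i ∈ s, f i x) = ∑ i ∈ s, Ex μ X (f i) :=
  integral_finsetSum _ fun i _ => H.int (hf i)

lemma Coins.exi (j : ℕ) : Ex μ X (xi j) = 1 - 2 * μ.real {ω | X j ω = true} := by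
  have hm : MeasurableSet {ω | X j ω = true} := H.meas j (measurableSet_singleton true)
  have : (fun ω => xi j fun i => X i ω) =
      fun ω => 1 - 2 * Set.indicator {ω | X j ω = true} (fun _ => (1 : ℝ)) ω := by
    funext ω
    by_cases h : X j ω = true <;> simp [xi, h]
    norm_num
  rw [Ex, this, integral_sub (integrable_const _)
    (((integrable_const _).indicator hm).const_mul _), integral_const_mul, integral_indicator hm]
  simp

variable (μ X) in
/-- Moments of the increments. -/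
noncomputable def mo (i s L : ℕ) : ℝ := Ex μ X fun x => D s L x ^ i

lemma Coins.step (s L : ℕ) (a b c d : ℝ) :
    Ex μ X (fun x => 1 + a * (xi (s + 1) x * D (s + 1) L x ^ 1) +
      b * D (s + 1) L x ^ 2 + c * (xi (s + 1) x * D (s + 1) L x ^ 3) +
      d * D (s + 1) L x ^ 4) =
    1 + a * (Ex μ X (xi (s + 1)) * mo μ X 1 (s + 1) L) + b * mo μ X 2 (s + 1) L +
      c * (Ex μ X (xi (s + 1)) * mo μ X 3 (s + 1) L) + d * mo μ X 4 (s + 1) L := by
  have f1 := (dep_xi s).fd
  have f2 := (dep_D (s + 1) L).fd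
  have e := fun i : ℕ => H.mul (dep_xi s) ((dep_D (s + 1) L).comp (· ^ i))
  rw [H.add (f1.comp₂ f2 fun u v => 1 + a * (u * v ^ 1) + b * v ^ 2 + c * (u * v ^ 3))
      (f2.comp fun v => d * v ^ 4),
    H.add (f1.comp₂ f2 fun u v => 1 + a * (u * v ^ 1) + b * v ^ 2)
      (f1.comp₂ f2 fun u v => c * (u * v ^ 3)),
    H.add (f1.comp₂ f2 fun u v => 1 + a * (u * v ^ 1)) (f2.comp fun v => b * v ^ 2),
    H.add (FD.const 1) (f1.comp₂ f2 fun u v => a * (u * v ^ 1)), Ex_const, Ex_cmul, Ex_cmul,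
    Ex_cmul, Ex_cmul, e, e]
  rfl

lemma Coins.rec1 (s L : ℕ) :
    mo μ X 1 s (L + 1) = 1 + Ex μ X (xi (s + 1)) * mo μ X 1 (s + 1) L := by
  have := H.step s L 1 0 0 0
  simp only [one_mul, zero_mul, add_zero] at this
  rw [← this, mo]
  congr 1; funext x; simp [D]

lemma Coins.rec2 (s L : ℕ) : mo μ X 2 s (L + 1) =
    1 + 2 * (Ex μ X (xi (s + 1)) * mo μ X 1 (s + 1) L) + mo μ X 2 (s + 1) L := by
  have := H.step s L 2 1 0 0
  simp only [one_mul, zero_mul, add_zero] at this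
  rw [← this, mo]
  congr 1; funext x
  simp only [D, xi]; split_ifs <;> ring

lemma Coins.rec3 (s L : ℕ) : mo μ X 3 s (L + 1) =
    1 + 3 * (Ex μ X (xi (s + 1)) * mo μ X 1 (s + 1) L) + 3 * mo μ X 2 (s + 1) L +
      Ex μ X (xi (s + 1)) * mo μ X 3 (s + 1) L := by
  have := H.step s L 3 3 1 0
  simp only [one_mul, zero_mul, add_zero] at this
  rw [← this, mo]
  congr 1; funext x
  simp only [D, xi]; split_ifs <;> ring

lemma Coins.rec4 (s L : ℕ) : mo μ X 4 s (L + 1) =
    1 + 4 * (Ex μ X (xi (s + 1)) * mo μ X 1 (s + 1) L) + 6 * mo μ X 2 (s + 1) L +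
      4 * (Ex μ X (xi (s + 1)) * mo μ X 3 (s + 1) L) + mo μ X 4 (s + 1) L := by
  have := H.step s L 4 6 4 1
  simp only [one_mul] at this
  rw [← this, mo]
  congr 1; funext x
  simp only [D, xi]; split_ifs <;> ring

omit H in
lemma mo_zero (i s : ℕ) : mo μ X (i + 1) s 0 = 0 := by simp [mo, D, Ex_const]

omit H [IsProbabilityMeasure μ] in
lemma mo_two_nonneg (s L : ℕ) : 0 ≤ mo μ X 2 s L := Ex_nonneg fun _ => sq_nonneg _

/-- The fourth moment is at most three times the square of the second. -/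
lemma Coins.kurt {n : ℕ} (hr : ∀ j, n < j → 0 ≤ Ex μ X (xi j) ∧
    Ex μ X (xi j) ≤ 1) (L s : ℕ) (hs : n ≤ s) : 0 ≤ mo μ X 1 s L ∧
    mo μ X 3 s L ≤ 3 * mo μ X 1 s L * mo μ X 2 s L ∧ mo μ X 4 s L ≤ 3 * mo μ X 2 s L ^ 2 := by
  induction L generalizing s with
  | zero => simp [mo_zero 0, mo_zero 1, mo_zero 2, mo_zero 3]
  | succ L ih =>
    obtain ⟨h1, h3, h4⟩ := ih (s + 1) (by omega)
    obtain ⟨r0, -⟩ := hr (s + 1) (by omega)
    have h2 := mo_two_nonneg (μ := μ) (X := X) (s + 1) L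
    have h5 := mul_le_mul_of_nonneg_left h3 r0
    have h6 := mul_nonneg r0 h1
    rw [H.rec1, H.rec2, H.rec3, H.rec4]
    generalize Ex μ X (xi (s + 1)) = r at *
    generalize mo μ X 1 (s + 1) L = m1 at *
    generalize mo μ X 2 (s + 1) L = m2 at *
    have e : r * (3 * m1 * m2) = 3 * (r * m1) * m2 := by ring
    rw [e] at h5
    generalize r * m1 = u at *
    refine ⟨by linarith, by nlinarith [sq_nonneg u], by nlinarith [sq_nonneg u]⟩

end Pool.Agent.P.MP_e2f23e_nt
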