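import Pool.Agent.P.MP_e2f23e_nt.Det

/-! Runs of good blocks occur infinitely often. -/

namespace Pool.Agent.P.MP_e2f23e_nt

open Finset MeasureTheory ProbabilityTheory Filter Topology

lemma gi_mem (ε : ℝ) (t L : ℕ) (A B : ℝ) (x : ℕ → Bool) :
    0 ≤ gi ε t L A B x ∧ gi ε t L A B x ≤ 1 := by
  unfold gi; split_ifs <;> simp

/-- The indicator of a run of good blocks. -/
noncomputable def suc (e : ℝ) (s L : ℕ) (A B : ℝ) (j : ℕ) (x : ℕ → Bool) : ℝ :=
  ∏ i ∈ range j, gi (e * dir (s + i * L) x) (s + i * L) L A B x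

lemma suc_mem (e : ℝ) (s L : ℕ) (A B : ℝ) (j : ℕ) (x : ℕ → Bool) :
    0 ≤ suc e s L A B j x ∧ suc e s L A B j x ≤ 1 :=
  ⟨prod_nonneg fun _ _ => (gi_mem ..).1, prod_le_one (fun _ _ => (gi_mem ..).1)
    fun _ _ => (gi_mem ..).2⟩

lemma dep_suc (e : ℝ) (s L : ℕ) (A B : ℝ) (j : ℕ) : Dep 0 (s + j * L) (suc e s L A B j) :=
  fun x x' h => prod_congr rfl fun i hi => by
    have : (i + 1) * L ≤ j * L := Nat.mul_le_mul_right _ (mem_range.1 hi)
    rw [add_mul, one_mul] at this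
    rw [((dep_dir _).mono le_rfl (by omega)) x x' h,
      ((dep_gi _ _ L A B).mono (Nat.zero_le _) (by omega)) x x' h]

lemma suc_zero {e a K l : ℝ} {m s : ℕ} {x : ℕ → Bool} (h : ¬Good e a K l m s x) :
    suc e s (s ^ 2) (a * l) (K * s ^ 2 * l ^ 2) m x = 0 := by
  simp only [Good, not_forall] at h
  obtain ⟨i, hi, h⟩ := h
  exact prod_eq_zero (mem_range.2 hi) (if_neg h)

/-- The ends of consecutive runs. -/
def sq (m s : ℕ) : ℕ → ℕ
  | 0 => s
  | j + 1 => sq m s j + m * sq m s j ^ 2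

lemma le_sq (m s j : ℕ) : s ≤ sq m s j := by
  induction j with
  | zero => exact le_rfl
  | succ j ih => exact ih.trans le_self_add

variable {Ω : Type} [MeasurableSpace Ω] {μ : Measure Ω} {X : ℕ → Ω → Bool}
  [IsProbabilityMeasure μ] (H : Coins μ X)
include H

lemma Coins.one {e q A B : ℝ} {t L : ℕ} {h : (ℕ → Bool) → ℝ} (hd : Dep 0 t h)
    (h0 : ∀ x, 0 ≤ h x) (q1 : q ≤ Ex μ X (gi e t L A B)) (q2 : q ≤ Ex μ X (gi (-e) t L A B)) :
    q * Ex μ X h ≤ Ex μ X fun x => h x * gi (e * dir t x) t L A B x := by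
  have d1 := hd.comp₂ (dep_dir t) fun u v => u * (1 + v) / 2
  have d2 := hd.comp₂ (dep_dir t) fun u v => u * (1 - v) / 2
  have e1 : (fun x => h x * gi (e * dir t x) t L A B x) = fun x =>
      h x * (1 + dir t x) / 2 * gi e t L A B x + h x * (1 - dir t x) / 2 * gi (-e) t L A B x := by
    funext x
    rcases dir_cases t x with h | h <;> simp only [h, mul_one, mul_neg] <;> ring
  have e2 : Ex μ X h = Ex μ X (fun x => h x * (1 + dir t x) / 2) +
      Ex μ X fun x => h x * (1 - dir t x) / 2 := by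
    rw [← H.add d1.fd d2.fd]; congr 1; funext x; ring
  have p1 : 0 ≤ Ex μ X fun x => h x * (1 + dir t x) / 2 := Ex_nonneg fun x => by
    have := h0 x
    rcases dir_cases t x with h | h <;> rw [h] <;> linarith
  have p2 : 0 ≤ Ex μ X fun x => h x * (1 - dir t x) / 2 := Ex_nonneg fun x => by
    have := h0 x
    rcases dir_cases t x with h | h <;> rw [h] <;> linarith
  rw [e1, H.add (d1.fd.comp₂ (dep_gi _ _ _ _ _).fd (· * ·)) (d2.fd.comp₂ (dep_gi _ _ _ _ _).fd (· * ·)),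
    H.mul d1 (dep_gi _ _ _ _ _), H.mul d2 (dep_gi _ _ _ _ _), e2]
  nlinarith [mul_le_mul_of_nonneg_left q1 p1, mul_le_mul_of_nonneg_left q2 p2]

lemma Coins.chain {e q A B : ℝ} {s L : ℕ} {h : (ℕ → Bool) → ℝ} (hd : Dep 0 s h)
    (h0 : ∀ x, 0 ≤ h x) (q0 : 0 ≤ q) (j : ℕ)
    (hq : ∀ i < j, q ≤ Ex μ X (gi e (s + i * L) L A B) ∧ q ≤ Ex μ X (gi (-e) (s + i * L) L A B)) :
    q ^ j * Ex μ X h ≤ Ex μ X fun x => h x * suc e s L A B j x := by
  induction j with
  | zero => simp [suc]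
  | succ j ih =>
    have a1 := H.one ((hd.mono le_rfl le_self_add).comp₂ (dep_suc e s L A B j) (· * ·))
      (fun x => mul_nonneg (h0 x) (suc_mem ..).1) (hq j (by omega)).1 (hq j (by omega)).2
    have a2 := mul_le_mul_of_nonneg_left (ih fun i hi => hq i (by omega)) q0
    simp only [suc, prod_range_succ, ← mul_assoc] at a1 a2 ⊢
    rw [pow_succ']
    linarith

lemma Coins.often {e q a K : ℝ} {m n : ℕ} {l : ℕ → ℝ} (q0 : 0 < q) (q1 : q ≤ 1)
    (hq : ∀ s, n ≤ s → ∀ i < m,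
      q ≤ Ex μ X (gi e (s + i * s ^ 2) (s ^ 2) (a * l s) (K * s ^ 2 * l s ^ 2)) ∧
      q ≤ Ex μ X (gi (-e) (s + i * s ^ 2) (s ^ 2) (a * l s) (K * s ^ 2 * l s ^ 2))) :
    ∀ᵐ ω ∂μ, ∃ s, n ≤ s ∧ Good e a K (l s) m s fun j => X j ω := by
  let R : ℕ → (ℕ → Bool) → ℝ := fun r x => ∏ j ∈ range r, (1 - suc e (sq m n j) (sq m n j ^ 2)
    (a * l (sq m n j)) (K * sq m n j ^ 2 * l (sq m n j) ^ 2) m x)
  have R0 : ∀ r x, 0 ≤ R r x := fun r x => prod_nonneg fun _ _ => sub_nonneg.2 (suc_mem ..).2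
  have Rd : ∀ r, Dep 0 (sq m n r) (R r) := fun r => by
    induction r with
    | zero => exact Dep.const _ _ _
    | succ r ih =>
      simp only [R, prod_range_succ]
      exact (ih.mono le_rfl le_self_add).comp₂ (dep_suc _ _ _ _ _ _) fun u v => u * (1 - v)
  have p0 : 0 < q ^ m := by positivity
  have p1 : q ^ m ≤ 1 := pow_le_one₀ q0.le q1
  have RE : ∀ r, Ex μ X (R r) ≤ (1 - q ^ m) ^ r := fun r => by
    induction r with
    | zero => simp [R, Ex_const]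
    | succ r ih =>
      have a1 := H.chain (Rd r) (R0 r) q0.le m (hq _ (le_sq m n r))
      have a2 := H.add (Rd (r + 1)).fd ((Rd r).fd.comp₂ (dep_suc e (sq m n r) (sq m n r ^ 2)
        (a * l (sq m n r)) (K * sq m n r ^ 2 * l (sq m n r) ^ 2) m).fd (· * ·))
      have a3 : (fun x => R (r + 1) x + R r x * suc e (sq m n r) (sq m n r ^ 2)
          (a * l (sq m n r)) (K * sq m n r ^ 2 * l (sq m n r) ^ 2) m x) = R r := by
        funext x; simp only [R, prod_range_succ]; ring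
      rw [a3] at a2
      rw [pow_succ]
      nlinarith [mul_le_mul_of_nonneg_right ih (sub_nonneg.2 p1)]
  rw [ae_iff, ← measureReal_eq_zero_iff]
  refine le_antisymm (ge_of_tendsto' (tendsto_pow_atTop_nhds_zero_of_lt_one (sub_nonneg.2 p1)
    (by linarith)) fun r => ?_) measureReal_nonneg
  have := mul_meas_ge_le_integral_of_nonneg (μ := μ) (f := fun ω => R r fun j => X j ω)
    (Eventually.of_forall fun ω => R0 r _) (H.int (Rd r).fd) 1
  rw [one_mul] at this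
  refine (measureReal_mono fun ω hω => ?_).trans (this.trans (RE r))
  refine (show R r (fun j => X j ω) = 1 from prod_eq_one fun j _ => ?_).ge
  rw [suc_zero fun h => hω ⟨_, le_sq m n j, h⟩, sub_zero]

lemma Coins.block {c C : ℝ} (hc : 0 < c)
    (hp : ∀ᶠ n : ℕ in atTop, μ.real {ω | X n ω = true} ≤ 1 / 4 ∧
      c ≤ ∑ j ∈ Ioc n (n + ⌊Real.log n⌋₊), μ.real {ω | X j ω = true} ∧
      ∑ j ∈ Ioc n (n + ⌊Real.log n⌋₊), μ.real {ω | X j ω = true} ≤ C) :
    ∃ (a K : ℝ) (l : ℕ → ℝ), 0 < a ∧ ∀ m : ℕ, ∀ᶠ s : ℕ in atTop, (s : ℝ) ≤ l s ∧ ∀ i < m,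
      ∀ ε : ℝ, ε = 1 ∨ ε = -1 →
        1 / 80 ≤ Ex μ X (gi ε (s + i * s ^ 2) (s ^ 2) (a * l s) (K * s ^ 2 * l s ^ 2)) := by
  obtain ⟨n, hn⟩ := eventually_atTop.1 hp
  set p : ℕ → ℝ := fun j => μ.real {ω | X j ω = true} with hpd
  have p0 : ∀ j, 0 ≤ p j := fun j => measureReal_nonneg
  have hx : ∀ j, Ex μ X (xi j) = 1 - 2 * p j := H.exi
  have hr : ∀ j, n < j → 0 ≤ Ex μ X (xi j) ∧ Ex μ X (xi j) ≤ 1 := fun j hj => by
    have : p j ≤ 1 / 4 := (hn j hj.le).1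
    rw [hx]; constructor <;> linarith [p0 j]
  have up : ∀ s k, n ≤ s → ⌊Real.log s⌋₊ ≤ k → rho μ X s k ≤ Real.exp (-(2 * c)) := by
    intro s k hs hk
    have a1 : c ≤ ∑ j ∈ Ioc s (s + k), p j := (hn s hs).2.1.trans
      (sum_le_sum_of_subset_of_nonneg (Ioc_subset_Ioc_right (by omega)) fun j _ _ => p0 j)
    calc rho μ X s k ≤ ∏ j ∈ Ioc s (s + k), Real.exp (-(2 * p j)) :=
          prod_le_prod (fun j hj => (hr j (by have := mem_Ioc.1 hj; omega)).1) fun j _ => by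
            rw [hx]; linarith [Real.add_one_le_exp (-(2 * p j))]
      _ ≤ _ := by
          rw [← Real.exp_sum, Real.exp_le_exp, sum_neg_distrib, ← mul_sum]; linarith
  have lo : ∀ s k, n ≤ s → k ≤ ⌊Real.log s⌋₊ → Real.exp (-(4 * C)) ≤ rho μ X s k := by
    intro s k hs hk
    have a1 : ∑ j ∈ Ioc s (s + k), p j ≤ C := le_trans
      (sum_le_sum_of_subset_of_nonneg (Ioc_subset_Ioc_right (by omega)) fun j _ _ => p0 j)
      (hn s hs).2.2
    calc _ ≤ ∏ j ∈ Ioc s (s + k), Real.exp (-(4 * p j)) := by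
          rw [← Real.exp_sum, Real.exp_le_exp, sum_neg_distrib, ← mul_sum]; linarith
      _ ≤ rho μ X s k := prod_le_prod (fun j _ => (Real.exp_pos _).le) fun j hj => by
          have b1 : p j ≤ 1 / 4 := (hn j (by have := mem_Ioc.1 hj; omega)).1
          have b2 := Real.add_one_le_exp (4 * p j)
          have b3 := p0 j
          rw [hx, Real.exp_neg, inv_le_iff_one_le_mul₀ (Real.exp_pos _)]
          nlinarith [mul_le_mul_of_nonneg_left b2 (by linarith : 0 ≤ 1 - 2 * p j)]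
  have θ1 : Real.exp (-(2 * c)) < 1 := Real.exp_lt_one_iff.2 (by linarith)
  generalize Real.exp (-(2 * c)) = θ at up θ1
  have u0 := Real.exp_pos (-(4 * C))
  generalize Real.exp (-(4 * C)) = u at lo u0
  have θ2 : 0 < 1 - θ := by linarith
  have mono : ∀ {s s' : ℕ}, 1 ≤ s → s ≤ s' → ⌊Real.log s⌋₊ ≤ ⌊Real.log s'⌋₊ := fun h1 h2 =>
    Nat.floor_le_floor (Real.log_le_log (by exact_mod_cast h1) (by exact_mod_cast h2))
  refine ⟨√(u / 2) / 10, 960 / (1 - θ), fun s => s * √(⌊Real.log s⌋₊ : ℝ), by positivity,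
    fun m => ?_⟩
  filter_upwards [eventually_ge_atTop n, eventually_ge_atTop 3, eventually_ge_atTop (m + 1),
    eventually_ge_atTop 1, tendsto_natCast_atTop_atTop.eventually
      (eventually_ge_atTop (36 * 512 / (u * (1 - θ) ^ 2)))] with s hs s3 sm s1 sb
  have s3' : (3 : ℝ) ≤ s := by exact_mod_cast s3
  have lg : 1 ≤ Real.log s := by
    rw [Real.le_log_iff_exp_le (by linarith)]
    linarith [Real.exp_one_lt_d9]
  have l1 : 1 ≤ ⌊Real.log s⌋₊ := Nat.le_floor (by simpa using lg)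
  have ls : ⌊Real.log s⌋₊ ≤ s := Nat.floor_le_of_le (by linarith [Real.log_le_sub_one_of_pos (by
    linarith : (0 : ℝ) < s)])
  have lN : ⌊Real.log (s + m * s ^ 2 : ℕ)⌋₊ ≤ 6 * ⌊Real.log s⌋₊ := by
    refine Nat.floor_le_of_le ?_
    have b1 : s + m * s ^ 2 ≤ s ^ 3 := by nlinarith [Nat.mul_le_mul_right (s ^ 2) sm]
    have b2 := Real.log_le_log (by exact_mod_cast (by omega : 0 < s + m * s ^ 2))
      (show ((s + m * s ^ 2 : ℕ) : ℝ) ≤ (s : ℝ) ^ 3 by exact_mod_cast b1)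
    have b3 := Nat.lt_floor_add_one (Real.log s)
    have b4 : (1 : ℝ) ≤ ⌊Real.log s⌋₊ := by exact_mod_cast l1
    rw [Real.log_pow] at b2
    push_cast at b2 ⊢
    linarith
  have hU := H.m1_le (n := s) (fun j hj => hr j (by omega)) (N := s + m * s ^ 2)
    (l := 6 * ⌊Real.log s⌋₊) (by omega) θ1 fun s' h1 h2 =>
      up s' _ (by omega) ((mono (by omega) h2).trans lN)
  have hL := H.le_m2 (n := s) (fun j hj => hr j (by omega)) (l := ⌊Real.log s⌋₊) (u := u)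
    fun s' h1 => lo s' _ (by omega) (mono s1 h1)
  have hV := H.m2_le hU
  generalize ⌊Real.log s⌋₊ = k at *
  have k1 : (1 : ℝ) ≤ k := by exact_mod_cast l1
  have ks : (k : ℝ) ≤ s := by exact_mod_cast ls
  have q1 : 1 ≤ √(k : ℝ) := Real.one_le_sqrt.2 k1
  refine ⟨le_mul_of_one_le_right (by positivity) q1, fun i hi ε hε => ?_⟩
  have tN : s + i * s ^ 2 + s ^ 2 ≤ s + m * s ^ 2 := by
    have : (i + 1) * s ^ 2 ≤ m * s ^ 2 := Nat.mul_le_mul_right _ hi
    rw [add_mul, one_mul] at this; omega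
  have st : s ≤ s + i * s ^ 2 := le_self_add
  generalize s + i * s ^ 2 = t at *
  have k2 : k ≤ s ^ 2 := ls.trans (Nat.le_self_pow two_ne_zero s)
  have b1 := hL (s ^ 2 - k) t st
  rw [Nat.add_sub_cancel' k2, Nat.cast_sub k2] at b1
  have b2 : u / 2 * (s ^ 2 * k) ≤ mo μ X 2 t (s ^ 2) := by
    refine le_trans ?_ b1
    push_cast
    have : (s : ℝ) ^ 2 / 2 ≤ s ^ 2 - k := by nlinarith
    nlinarith [mul_le_mul_of_nonneg_left this (by positivity : 0 ≤ k * u)]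
  have b3 : 0 < u / 2 * (s ^ 2 * k) := by positivity
  have ku := H.kurt (n := s) (fun j hj => hr j (by omega)) (s ^ 2) t st
  have sqk : √(k : ℝ) ^ 2 = k := Real.sq_sqrt (by positivity)
  refine H.pz (σ := √(mo μ X 2 t (s ^ 2))) hε (Real.sqrt_pos.2 (by linarith)) (by positivity)
    (Real.sq_sqrt (by linarith)).symm ku.1 ?_ ku.2.2 ?_ ?_
  · refine (hU _ t st tN).trans ?_
    rw [le_div_iff₀ (by norm_num : (0 : ℝ) < 16)]
    refine Real.le_sqrt_of_sq_le (le_trans ?_ b2)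
    rw [div_le_iff₀ (by positivity)] at sb
    push_cast
    rw [mul_pow, div_pow, div_mul_eq_mul_div, div_le_iff₀ (by positivity)]
    have c1 := mul_le_mul sb ks (by positivity) (by positivity)
    nlinarith [mul_le_mul_of_nonneg_right c1 (by positivity : (0 : ℝ) ≤ k)]
  · have := sum_le_card_nsmul (range (s ^ 2)) (fun j => mo μ X 2 t j)
      (2 * (((6 * k : ℕ) : ℝ) / (1 - θ)) * (s ^ 2 : ℕ)) fun j hj => by
        have hj := (mem_range.1 hj).le
        exact (hV j t st (by omega)).trans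
          (mul_le_mul_of_nonneg_left (by exact_mod_cast hj) (by positivity))
    refine this.trans (le_of_eq ?_)
    rw [card_range, nsmul_eq_mul, mul_pow, sqk]
    push_cast
    field_simp
    ring
  · rw [div_mul_eq_mul_div]
    refine div_le_div_of_nonneg_right (Real.le_sqrt_of_sq_le (le_trans (le_of_eq ?_) b2))
      (by norm_num)
    rw [mul_pow, mul_pow, sqk, Real.sq_sqrt (by positivity)]

lemma Coins.side {c C : ℝ} (hc : 0 < c)
    (hp : ∀ᶠ n : ℕ in atTop, μ.real {ω | X n ω = true} ≤ 1 / 4 ∧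
      c ≤ ∑ j ∈ Ioc n (n + ⌊Real.log n⌋₊), μ.real {ω | X j ω = true} ∧
      ∑ j ∈ Ioc n (n + ⌊Real.log n⌋₊), μ.real {ω | X j ω = true} ≤ C) {e : ℝ}
    (he : e = 1 ∨ e = -1) : ∀ᵐ ω ∂μ, ∀ M n : ℕ, ∃ N, n < N ∧ 0 < e * walk (fun j => X j ω) N ∧
      M * PA (-e) (fun j => X j ω) N < PA e (fun j => X j ω) N := by
  obtain ⟨a, K, l, ha, h⟩ := H.block hc hp
  refine ae_all_iff.2 fun M => ae_all_iff.2 fun n => ?_
  obtain ⟨m, hm⟩ : ∃ m : ℕ, 1 / a < m ∧ 1 + 2 * ((M + 1) * (1 + |(K + 3) / 2|)) / a < m :=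
    ((tendsto_natCast_atTop_atTop.eventually (eventually_gt_atTop _)).and
      (tendsto_natCast_atTop_atTop.eventually (eventually_gt_atTop _))).exists
  obtain ⟨n', hn'⟩ := eventually_atTop.1 (h m)
  have he' : -e = 1 ∨ -e = -1 := by rcases he with rfl | rfl <;> simp
  filter_upwards [H.often (e := e) (n := max n' (n + 1)) (by norm_num) (by norm_num) fun s hs i hi =>
    ⟨(hn' s (le_of_max_le_left hs)).2 i hi e he, (hn' s (le_of_max_le_left hs)).2 i hi _ he'⟩]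
    with ω ⟨s, hs, hg⟩
  have h1 := le_of_max_le_right hs
  have M0 : (0 : ℝ) ≤ M := M.cast_nonneg
  refine ⟨s + m * s ^ 2, by omega, hg.fin he ha.le (by omega) (hn' s (le_of_max_le_left hs)).1 M0
    (by have := hm.1; rwa [div_lt_iff₀ ha] at this) ?_⟩
  have b0 := abs_nonneg ((K + 3) / 2)
  have b1 := le_abs_self ((K + 3) / 2)
  have b2 : 2 * ((M + 1) * (1 + |(K + 3) / 2|)) < (m - 1) * a := by
    rw [← div_lt_iff₀ ha]; linarith [hm.2]
  have m1 : (1 : ℝ) ≤ m := le_trans (le_add_of_nonneg_right (by positivity)) hm.2.le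
  generalize |(K + 3) / 2| = k' at *
  generalize (K + 3) / 2 = k at *
  have b3 := mul_lt_mul_of_pos_left b2 (by linarith : (0 : ℝ) < m)
  have b4 := mul_le_mul_of_nonneg_left b1 (by positivity : (0 : ℝ) ≤ (M + 1) * m)
  nlinarith [mul_le_mul_of_nonneg_left m1 (by positivity : (0 : ℝ) ≤ M + 1)]

theorem main {c C : ℝ} (hc : 0 < c)
    (hp : ∀ᶠ n : ℕ in atTop, μ.real {ω | X n ω = true} ≤ 1 / 4 ∧
      c ≤ ∑ j ∈ Ioc n (n + ⌊Real.log n⌋₊), μ.real {ω | X j ω = true} ∧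
      ∑ j ∈ Ioc n (n + ⌊Real.log n⌋₊), μ.real {ω | X j ω = true} ≤ C) :
    ∀ᵐ ω ∂μ, (∃ᶠ k in atTop, walk (fun j => X j ω) k = 0) ∧ ∀ M : ℕ,
      (∃ᶠ n in atTop, M * Aneg (fun j => X j ω) n < Apos (fun j => X j ω) n) ∧
      ∃ᶠ n in atTop, M * Apos (fun j => X j ω) n < Aneg (fun j => X j ω) n := by
  filter_upwards [H.side hc hp (Or.inl rfl), H.side hc hp (Or.inr rfl)] with ω h1 h2
  refine ⟨frequently_atTop.2 fun n => ?_, fun M => ⟨frequently_atTop.2 fun n => ?_,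
    frequently_atTop.2 fun n => ?_⟩⟩
  · obtain ⟨N, a1, a2, -⟩ := h1 0 n
    obtain ⟨N', b1, b2, -⟩ := h2 0 N
    obtain ⟨d, rfl⟩ := Nat.exists_eq_add_of_le b1.le
    obtain ⟨k, c1, c2⟩ := exists_zero (fun j => X j ω) (a := N) (by omega)
      (by rw [one_mul] at a2; exact_mod_cast a2) d
      (by rw [neg_one_mul, neg_pos] at b2; exact_mod_cast b2)
    exact ⟨k, by omega, c2⟩
  · obtain ⟨N, a1, -, a2⟩ := h1 M n
    obtain ⟨N, rfl⟩ := Nat.exists_eq_add_one_of_ne_zero (by omega : N ≠ 0)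
    rw [← Apos_eq, ← Aneg_eq] at a2
    exact ⟨N, by omega, by exact_mod_cast a2⟩
  · obtain ⟨N, a1, -, a2⟩ := h2 M n
    obtain ⟨N, rfl⟩ := Nat.exists_eq_add_one_of_ne_zero (by omega : N ≠ 0)
    rw [neg_neg, ← Apos_eq, ← Aneg_eq] at a2
    exact ⟨N, by omega, by exact_mod_cast a2⟩

end Pool.Agent.P.MP_e2f23e_nt
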